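import Mathlib
import Pool.Agent.Lib.helper12.NL

set_option autoImplicit false

open Pool.Agent.Lib.helper12.NL SimpleGraph Finset

namespace Pool.Agent.Results.MP_16ddc9_co.Full

variable {V : Type} [Fintype V] {G : SimpleGraph V} [DecidableRel G.Adj] {k : ℕ} {c : V → Fin k}

lemma types (h : IsNL G c) (z : Fin k) (S : Fin k → Finset (Fin k)) (hS : ∀ j, j ∈ S j) :
    #{x | c x ≠ z ∧ ∃ j, (G.neighborFinset x).image c = S j} ≤ (k - 1) ^ 2 := by
  classical
  have : ∀ x : V, ∃ j, (∃ j, (G.neighborFinset x).image c = S j) →
      (G.neighborFinset x).image c = S j := fun x => by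
    by_cases a : ∃ j, (G.neighborFinset x).image c = S j
    · exact a.imp fun _ e _ => e
    · exact ⟨z, fun e => absurd e a⟩
  choose f hf using this
  refine (card_le_card_of_injOn (t := (univ.erase z).sigma fun i => univ.erase i)
    (fun x => ⟨c x, f x⟩) (fun x hx => ?_) fun x hx y hy e => ?_).trans (by simp [sq])
  · simp only [coe_filter, mem_univ, true_and, Set.mem_ofPred_eq] at hx
    obtain ⟨w, a, b⟩ := mem_image.1 (hf x hx.2 ▸ hS (f x))
    simpa [hx.1] using fun e => h.1 x w (by simpa using a) (b.trans e).symm
  · simp only [coe_filter, mem_univ, true_and, Set.mem_ofPred_eq, Sigma.mk.injEq,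
      heq_eq_eq] at hx hy e
    by_contra d
    refine h.2 x y d e.1 ?_
    have : ∀ x, c '' G.neighborSet x = ((G.neighborFinset x).image c : Finset _) := fun x => by simp
    rw [this, this, hf x hx.2, hf y hy.2, e.2]

theorem main (hT : G.IsTree) (h : IsNL G c) (v : V) : G.degree v ≤ (k - 1) ^ 2 := by
  classical
  let Z : V → Prop := fun x => x ≠ v ∧ c x = c v ∧ G.degree x = 1
  let N : V → Finset V := fun x => (G.neighborFinset x).filter fun y => ¬ Z y
  let A : V → Finset (Fin k) := fun x => (G.neighborFinset x).image c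
  have h1 := types h (c v) (fun j => {j}) mem_singleton_self
  have h2 := types h (c v) (fun j => {c v, j}) (by simp)
  have e1 : ∑ x, (G.degree x : ℤ) + 2 = 2 * Fintype.card V := by
    have := hT.card_edgeFinset
    have := G.sum_degrees_eq_twice_card_edges
    exact_mod_cast (by omega : ∑ x, G.degree x + 2 = 2 * Fintype.card V)
  have e2 : ∑ x, (#((G.neighborFinset x).filter Z) : ℤ) = ∑ y, if Z y then 1 else 0 := by
    simp only [card_filter, neighborFinset_eq_filter, sum_filter, Nat.cast_sum]
    rw [sum_comm]
    refine sum_congr rfl fun y _ => ?_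
    split_ifs with z
    · have := z.2.2
      rw [← card_neighborFinset_eq_degree, neighborFinset_eq_filter, card_filter] at this
      simp only [G.adj_comm _ y]
      exact_mod_cast this
    · simp
  have e3 : ∑ x, (if G.Adj v x then 1 else 0 : ℤ) = G.degree v := by
    rw [← card_neighborFinset_eq_degree, neighborFinset_eq_filter, card_filter]; simp
  have sp : ∀ x, (#((G.neighborFinset x).filter Z) : ℤ) + #(N x) = G.degree x := fun x => by
    exact_mod_cast card_filter_add_card_filter_not Z
  have AN : ∀ x, A x ⊆ insert (c v) ((N x).image c) := fun x j hj => by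
    obtain ⟨y, a, rfl⟩ := mem_image.1 hj
    by_cases z : Z y
    · simp [z.2.1]
    · exact mem_insert_of_mem (mem_image_of_mem _ (mem_filter.2 ⟨a, z⟩))
  have pos : ∀ x, x ≠ v → ¬ Z x → (N x).Nonempty := fun x hx _ => by
    obtain ⟨p, hp⟩ := hT.1.exists_isPath x v
    cases p with
    | nil => exact absurd rfl hx
    | @cons _ y _ a q =>
      refine ⟨y, mem_filter.2 ⟨by simpa using a, fun z => ?_⟩⟩
      cases q with
      | nil => exact z.1 rfl
      | @cons _ w _ b q =>
        have := z.2.2
        rw [← card_neighborFinset_eq_degree, card_eq_one] at this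
        obtain ⟨t, ht⟩ := this
        have a1 : x ∈ G.neighborFinset y := by simpa using a.symm
        have b1 : w ∈ G.neighborFinset y := by simpa using b
        rw [ht, mem_singleton] at a1 b1
        rw [Walk.cons_isPath_iff] at hp
        exact hp.2 (by simp [a1, ← b1])
  have pt : ∀ x, 2 - (G.degree x : ℤ) + #((G.neighborFinset x).filter Z) - (if Z x then 1 else 0) +
      (if G.Adj v x then 1 else 0) ≤ (if x = v then 2 - (G.degree v : ℤ) else 0) +
      (if c x ≠ c v ∧ ∃ j, A x = {j} then 1 else 0) +
      (if c x ≠ c v ∧ ∃ j, A x = {c v, j} then 1 else 0) := fun x => by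
    have s := sp x
    have z0 : c x = c v → (G.neighborFinset x).filter Z = ∅ := fun e => filter_eq_empty_iff.2
      fun y a z => h.1 x y (by simpa using a) (e.trans z.2.1.symm)
    by_cases hx : x = v
    · subst hx; simp [z0 rfl]; split_ifs <;> simp
    by_cases z : Z x
    · have : ¬ G.Adj v x := fun a => h.1 _ _ a z.2.1.symm
      simp [z0 z.2.1, z, this, hx, z.2.2, z.2.1]
    have p1 := card_pos.2 (pos x hx z)
    by_cases a : G.Adj v x
    · have cx := (h.1 _ _ a).symm
      have vN : v ∈ N x := mem_filter.2 ⟨by simpa using a.symm, fun z => z.1 rfl⟩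
      have vA : c v ∈ A x := mem_image_of_mem _ (by simpa using a.symm)
      have le : #(A x) ≤ #(N x) := (card_le_card ((AN x).trans
        (insert_subset (mem_image_of_mem _ vN) subset_rfl))).trans card_image_le
      simp only [z, a, hx, if_true, if_false, ne_eq, cx, not_false_eq_true, true_and]
      by_cases b : #(A x) ≤ 1
      · have : A x = {c v} := eq_singleton_iff_unique_mem.2 ⟨vA, fun j hj => card_le_one.1 b _ hj _ vA⟩
        rw [if_pos ⟨_, this⟩, if_pos ⟨c v, by simp [this]⟩]; omega
      by_cases d : #(A x) = 2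
      · obtain ⟨i, j, -, e⟩ := card_eq_two.1 d
        have : ∃ j, A x = {c v, j} := by
          rw [e] at vA ⊢
          rcases mem_insert.1 vA with t | t
          exacts [⟨j, by rw [t]⟩, ⟨i, by rw [mem_singleton.1 t, pair_comm]⟩]
        rw [if_pos this]; split_ifs <;> omega
      · split_ifs <;> omega
    simp only [z, a, hx, if_false]
    by_cases b : #(N x) = 1
    · have cx : c x ≠ c v := fun e => z ⟨hx, e, by rw [z0 e] at s; simp at s; omega⟩
      obtain ⟨y, e⟩ := card_eq_one.1 b
      have yA : c y ∈ A x := mem_image_of_mem _ (mem_filter.1 (e ▸ mem_singleton_self y : y ∈ N x)).1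
      have := AN x
      rw [e, image_singleton] at this
      by_cases vA : c v ∈ A x
      · rw [if_pos (⟨cx, c y, this.antisymm (by simp [insert_subset_iff, vA, yA])⟩ :
          c x ≠ c v ∧ ∃ j, A x = {c v, j})]
        split_ifs <;> omega
      · rw [if_pos ⟨cx, c y, ((subset_insert_iff_of_notMem vA).1 this).antisymm (by simp [yA])⟩]
        split_ifs <;> omega
    · split_ifs <;> omega
  have := sum_le_sum fun x (_ : x ∈ univ) => pt x
  simp only [sum_add_distrib, sum_sub_distrib, e2, e3, sum_ite_eq', mem_univ, if_true, sum_const,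
    card_univ, nsmul_eq_mul, sum_boole] at this
  zify at h1 h2 ⊢
  linarith

/-- Every finite tree with neighbour-locating chromatic number `k` has maximum degree at most
`(k-1)^2`. -/
theorem result (V : Type) [Fintype V] (G : SimpleGraph V) [DecidableRel G.Adj] (hT : G.IsTree)
    (k : ℕ) (hk : chiNL G = k) : G.maxDegree ≤ (k - 1) ^ 2 := by
  obtain ⟨c, h⟩ := chi_spec G
  exact hk ▸ G.maxDegree_le_of_forall_degree_le _ (main hT h)

end Pool.Agent.Results.MP_16ddc9_co.Full
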